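import Pool.Agent.MP_81f5b7_pr.H66.Spec

/-! From the final graph of the process to the surviving colourings. -/

namespace Pool.Agent.MP_81f5b7_pr.H66

open Finset
open scoped Classical

namespace GRAPH

theorem bi_diag {V : Type} {σ : V → C3} {e : Sym2 V} (h : bi σ e) : ¬e.IsDiag :=
  fun h' => h (h'.map)

theorem bi_mk' {V : Type} {σ : V → C3} {x y : V} : bi σ s(x, y) ↔ σ x ≠ σ y := by simp [bi]

theorem bi_comp {V : Type} (ρ : Equiv.Perm C3) {σ : V → C3} {e : Sym2 V} (h : bi σ e) :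
    bi (ρ ∘ σ) e := by
  induction e using Sym2.ind with
  | _ x y => exact bi_mk'.2 fun h' => bi_mk'.1 h (ρ.injective h')

theorem col_iff {V : Type} (X : Set (Sym2 V)) : (SimpleGraph.fromEdgeSet X).Colorable 3 ↔
    ∃ c : V → C3, ∀ e ∈ X, ¬e.IsDiag → bi c e := by
  constructor
  · rintro ⟨c⟩
    refine ⟨c, fun e => ?_⟩
    induction e using Sym2.ind with
    | _ x y =>
      intro h1 h2
      exact bi_mk'.2 (c.valid ((SimpleGraph.fromEdgeSet_adj X).2 ⟨h1, by simpa using h2⟩))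
  · rintro ⟨c, hc⟩
    refine ⟨SimpleGraph.Coloring.mk c fun {x y} h => ?_⟩
    obtain ⟨h1, h2⟩ := (SimpleGraph.fromEdgeSet_adj X).1 h
    exact bi_mk'.1 (hc _ h1 (by simpa using h2))

variable {n : ℕ} {τ : Fin n → C3}

theorem mem_S {σ : C3 ⊕ Fin n → C3} : σ ∈ S0 (Sum.elim id τ) (univ.image Sum.inl) ↔
    (∀ i, σ (Sum.inl i) = i) ∧ ∀ v, σ (Sum.inr v) ≠ τ v := by
  simp [mem_S0, al]

theorem bi_E0 {σ : C3 ⊕ Fin n → C3} (h : σ ∈ S0 (Sum.elim id τ) (univ.image Sum.inl))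
    {e : Sym2 (C3 ⊕ Fin n)} (he : e ∈ E0 τ) (hd : ¬e.IsDiag) : bi σ e := by
  obtain ⟨h1, h2⟩ := mem_S.1 h
  rcases he with ⟨i, j, rfl⟩ | ⟨v, rfl⟩
  · rw [bi_mk', h1, h1]
    simpa using hd
  · rw [bi_mk', h1]
    exact (h2 v).symm

theorem norm {c : C3 ⊕ Fin n → C3} (h : ∀ e ∈ E0 τ, ¬e.IsDiag → bi c e) :
    ∃ ρ : Equiv.Perm C3, ρ ∘ c ∈ S0 (Sum.elim id τ) (univ.image Sum.inl) := by
  have h1 : Function.Injective fun i : C3 => c (Sum.inl i) := fun i j e => by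
    by_contra hij
    exact bi_mk'.1 (h _ (Or.inl ⟨i, j, rfl⟩) (by simpa using hij)) e
  let ρ := Equiv.ofBijective _ (Finite.injective_iff_bijective.1 h1)
  refine ⟨ρ.symm, mem_S.2 ⟨fun i => ρ.symm_apply_eq.2 rfl, fun v e => ?_⟩⟩
  exact bi_mk'.1 (h _ (Or.inr ⟨v, rfl⟩) (by simp)) (ρ.symm_apply_eq.1 e).symm

theorem col_E0 (F : Set (Sym2 (C3 ⊕ Fin n))) :
    (SimpleGraph.fromEdgeSet (E0 τ ∪ F)).Colorable 3 ↔
      ∃ σ ∈ S0 (Sum.elim id τ) (univ.image Sum.inl), ∀ f ∈ F, ¬f.IsDiag → bi σ f := by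
  rw [col_iff]
  constructor
  · rintro ⟨c, hc⟩
    obtain ⟨ρ, hρ⟩ := norm fun e he => hc e (Or.inl he)
    exact ⟨_, hρ, fun f hf hd => bi_comp ρ (hc f (Or.inr hf) hd)⟩
  · rintro ⟨σ, h1, h2⟩
    exact ⟨σ, fun e he hd => he.elim (fun h => bi_E0 h1 h hd) fun h => h2 e h hd⟩

theorem mem_take (π : Sym2 (C3 ⊕ Fin n) ≃ Fin (Fintype.card (Sym2 (C3 ⊕ Fin n))))
    (H : SimpleGraph (C3 ⊕ Fin n))
    (hH : ∀ e : Sym2 (C3 ⊕ Fin n), ¬e.IsDiag → (e ∈ H.edgeSet ↔ (SimpleGraph.fromEdgeSet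
      (E0 τ ∪ {f | f ∈ H.edgeSet ∧ π f < π e} ∪ {e})).Colorable 3))
    (k : ℕ) (hk : k ≤ Fintype.card (Sym2 (C3 ⊕ Fin n))) (σ : C3 ⊕ Fin n → C3) :
    σ ∈ run (S0 (Sum.elim id τ) (univ.image Sum.inl)) ((ordl π).take k) ↔
      σ ∈ S0 (Sum.elim id τ) (univ.image Sum.inl) ∧
        ∀ f ∈ H.edgeSet, (π f).val < k → bi σ f := by
  induction k generalizing σ with
  | zero => simp
  | succ k ih =>
    have ih' := ih (by omega)
    obtain ⟨e, he⟩ : ∃ e, π e = ⟨k, hk⟩ := π.surjective _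
    have h1 : (ordl π).take (k + 1) = (ordl π).take k ++ [{e}] := by
      rw [List.take_succ_eq_append_getElem (by simpa [ordl] using hk)]
      simp [ordl, ← he]
    have h2 : (∃ σ ∈ run (S0 (Sum.elim id τ) (univ.image Sum.inl)) ((ordl π).take k), bi σ e) ↔
        e ∈ H.edgeSet := by
      by_cases hd : e.IsDiag
      · exact iff_of_false (fun ⟨_, _, h⟩ => bi_diag h hd) fun h => H.not_isDiag_of_mem_edgeSet h hd
      rw [hH e hd, Set.union_assoc, col_E0]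
      refine exists_congr fun σ' => ?_
      rw [ih', and_assoc]
      refine and_congr_right fun _ => ⟨fun h f hf _ => ?_, fun h => ⟨fun f hf hlt => ?_, ?_⟩⟩
      · rcases hf with hf | hf
        · exact h.1 f hf.1 (by have := hf.2; rwa [he] at this)
        · exact (show f = e from hf) ▸ h.2
      · exact h f (Or.inl ⟨hf, by rw [he]; exact hlt⟩) (H.not_isDiag_of_mem_edgeSet hf)
      · exact h e (Or.inr rfl) hd
    have h3 : ∀ f, (π f).val < k + 1 ↔ (π f).val < k ∨ f = e := fun f => by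
      rw [← π.injective.eq_iff, he, Fin.ext_iff]
      exact Nat.lt_succ_iff_lt_or_eq
    rw [h1, run_snoc, gr_single]
    split_ifs with h4 <;> rw [h2] at h4
    · rw [mem_filter, ih', and_assoc]
      refine and_congr_right fun _ => ⟨fun h f hf hlt => ?_, fun h =>
        ⟨fun f hf hlt => h f hf (by omega), h e h4 ((h3 e).2 (Or.inr rfl))⟩⟩
      rcases (h3 f).1 hlt with h5 | rfl
      exacts [h.1 f hf h5, h.2]
    · rw [ih']
      refine and_congr_right fun _ => ⟨fun h f hf hlt => ?_, fun h f hf hlt => h f hf (by omega)⟩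
      rcases (h3 f).1 hlt with h5 | rfl
      exacts [h f hf h5, absurd hf h4]

end GRAPH

open GRAPH in
theorem rowGRAPH : SGRAPH := by
  intro n τ π H hH c i
  have h1 : ∀ σ, σ ∈ run (S0 (Sum.elim id τ) (univ.image Sum.inl)) (ordl π) ↔
      σ ∈ S0 (Sum.elim id τ) (univ.image Sum.inl) ∧ ∀ f ∈ H.edgeSet, bi σ f := fun σ => by
    have := mem_take π H hH _ le_rfl σ
    rw [List.take_of_length_le (by simp [ordl])] at this
    simpa using this
  obtain ⟨σ, hσ⟩ := run_ne (S0_ne (Sum.elim id τ) (univ.image Sum.inl)) (ordl π)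
  obtain ⟨h2, h3⟩ := (h1 σ).1 hσ
  have h4 : ∀ e ∈ E0 τ, ¬e.IsDiag → e ∈ H.edgeSet := fun e he hd => by
    rw [hH e hd, Set.union_assoc, col_E0]
    refine ⟨σ, h2, fun f hf _ => ?_⟩
    rcases hf with hf | hf
    · exact h3 f hf.1
    · exact (show f = e from hf) ▸ bi_E0 h2 he hd
  have h5 : ∀ f ∈ H.edgeSet, bi c f := fun f => by
    induction f using Sym2.ind with
    | _ x y => exact fun h => bi_mk'.2 (c.valid h)
  obtain ⟨ρ, hρ⟩ := norm (τ := τ) (c := c) fun e he hd => h5 e (h4 e he hd)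
  refine ⟨ρ ∘ c, (h1 _).2 ⟨hρ, fun f hf => bi_comp ρ (h5 f hf)⟩, ρ i, ?_⟩
  rw [Nat.card_eq_fintype_card, Fintype.card_subtype]
  simp [sz]

end Pool.Agent.MP_81f5b7_pr.H66
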